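import Mathlib

set_option autoImplicit false

/-!
# An IRC-colourable graph without an IRC-colouring with the chromatic number of colours
-/

namespace Pool.Agent.Results.MP_c3fc26_co.Counterexample

/-- The closed neighbourhood of `v`. -/
def closedNbhd {V : Type} (G : SimpleGraph V) (v : V) : Set V := {w | w = v ∨ G.Adj v w}

/-- The private neighbourhood of `v` with respect to `S`. -/
def privateNbhd {V : Type} (G : SimpleGraph V) (v : V) (S : Set V) : Set V :=
  closedNbhd G v \ ⋃ u ∈ S \ {v}, closedNbhd G u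

/-- `S` is irredundant: every member has a nonempty private neighbourhood. -/
def Irredundant {V : Type} (G : SimpleGraph V) (S : Set V) : Prop :=
  ∀ v ∈ S, (privateNbhd G v S).Nonempty

/-- `c` is an IRC-colouring of `G` with (exactly) `k` colours: it is a proper colouring, all `k`
colour classes are nonempty, and every rainbow committee `{x 0, ..., x (k-1)}`, with `x i` in the
class of colour `i`, is irredundant. -/
structure IsIRCColouring {V : Type} (G : SimpleGraph V) {k : ℕ} (c : V → Fin k) : Prop where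
  proper : ∀ u v, G.Adj u v → c u ≠ c v
  surjective : Function.Surjective c
  irredundant : ∀ x : Fin k → V, (∀ i, c (x i) = i) → Irredundant G (Set.range x)

/-- `G` has an IRC-colouring with some number of colours. -/
def IRCColourable {V : Type} (G : SimpleGraph V) : Prop :=
  ∃ (k : ℕ) (c : V → Fin k), IsIRCColouring G c

/-- The list of edges of the graph. -/
def edges : List (Fin 13 × Fin 13) :=
  [(0, 5), (0, 9), (1, 3), (2, 3), (3, 5), (3, 9), (4, 7), (4, 8), (4, 9), (5, 7), (5, 8), (5, 9),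
   (6, 7), (6, 8), (6, 9), (10, 11), (10, 12), (11, 0), (11, 1), (11, 2), (12, 0), (12, 1), (12, 2)]

/-- The graph. -/
def G : SimpleGraph (Fin 13) where
  Adj u v := (u, v) ∈ edges ∨ (v, u) ∈ edges
  symm := ⟨fun _ _ h => h.symm⟩
  loopless := ⟨by decide⟩

instance : DecidableRel G.Adj := fun u v =>
  inferInstanceAs (Decidable ((u, v) ∈ edges ∨ (v, u) ∈ edges))

lemma connected : G.Connected := by
  have hr : ∀ v, G.Reachable 11 v := by
    have a0 : G.Reachable 11 0 := SimpleGraph.Adj.reachable (by decide)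
    have a1 : G.Reachable 11 1 := SimpleGraph.Adj.reachable (by decide)
    have a2 : G.Reachable 11 2 := SimpleGraph.Adj.reachable (by decide)
    have a10 : G.Reachable 11 10 := SimpleGraph.Adj.reachable (by decide)
    have a3 : G.Reachable 11 3 := a1.trans (SimpleGraph.Adj.reachable (by decide))
    have a5 : G.Reachable 11 5 := a0.trans (SimpleGraph.Adj.reachable (by decide))
    have a9 : G.Reachable 11 9 := a0.trans (SimpleGraph.Adj.reachable (by decide))
    have a4 : G.Reachable 11 4 := a9.trans (SimpleGraph.Adj.reachable (by decide))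
    have a6 : G.Reachable 11 6 := a9.trans (SimpleGraph.Adj.reachable (by decide))
    have a7 : G.Reachable 11 7 := a5.trans (SimpleGraph.Adj.reachable (by decide))
    have a8 : G.Reachable 11 8 := a5.trans (SimpleGraph.Adj.reachable (by decide))
    have a12 : G.Reachable 11 12 := a0.trans (SimpleGraph.Adj.reachable (by decide))
    intro v
    fin_cases v
    · exact a0
    · exact a1
    · exact a2
    · exact a3
    · exact a4
    · exact a5
    · exact a6
    · exact a7
    · exact a8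
    · exact a9
    · exact a10
    · exact SimpleGraph.Reachable.refl _
    · exact a12
  exact SimpleGraph.Connected.mk fun u v => (hr u).symm.trans (hr v)

lemma chrom : G.chromaticNumber = 3 := by
  apply le_antisymm
  · have h : G.Colorable 3 :=
      ⟨SimpleGraph.Coloring.mk
        (fun v => (![0, 1, 1, 0, 1, 1, 1, 0, 0, 2, 0, 2, 2] : Fin 13 → Fin 3) v)
        (by
          have : ∀ u v, G.Adj u v → (![0, 1, 1, 0, 1, 1, 1, 0, 0, 2, 0, 2, 2] : Fin 13 → Fin 3) u ≠
            (![0, 1, 1, 0, 1, 1, 1, 0, 0, 2, 0, 2, 2] : Fin 13 → Fin 3) v := by decide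
          intro u v h
          exact this u v h)⟩
    exact_mod_cast h.chromaticNumber_le
  · by_contra hcon
    push Not at hcon
    have h2 : G.Colorable 2 := by
      have h3 : G.chromaticNumber ≤ (2 : ℕ) := by
        have := ENat.lt_add_one_iff (m := G.chromaticNumber) (n := 2) (by decide)
        exact_mod_cast this.1 (by exact_mod_cast hcon)
      exact SimpleGraph.chromaticNumber_le_iff_colorable.1 h3
    obtain ⟨c⟩ := h2
    have e1 := c.valid (show G.Adj 3 5 by decide)
    have e2 := c.valid (show G.Adj 3 9 by decide)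
    have e3 := c.valid (show G.Adj 5 9 by decide)
    revert e1 e2 e3
    generalize c 3 = x
    generalize c 5 = y
    generalize c 9 = z
    revert x y z
    decide

/-- the colouring with four colours -/
def c4 : Fin 13 → Fin 4 := ![0, 0, 0, 1, 2, 2, 2, 3, 3, 3, 0, 1, 1]

lemma c4_irc : IsIRCColouring G c4 := by
  refine ⟨by decide, by decide, ?_⟩
  intro x hx
  have key : ∀ x0 x1 x2 x3 : Fin 13, c4 x0 = 0 → c4 x1 = 1 → c4 x2 = 2 → c4 x3 = 3 →
      (∃ w, (w = x0 ∨ G.Adj x0 w) ∧ ¬ (w = x1 ∨ G.Adj x1 w) ∧ ¬ (w = x2 ∨ G.Adj x2 w) ∧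
        ¬ (w = x3 ∨ G.Adj x3 w)) ∧
      (∃ w, (w = x1 ∨ G.Adj x1 w) ∧ ¬ (w = x0 ∨ G.Adj x0 w) ∧ ¬ (w = x2 ∨ G.Adj x2 w) ∧
        ¬ (w = x3 ∨ G.Adj x3 w)) ∧
      (∃ w, (w = x2 ∨ G.Adj x2 w) ∧ ¬ (w = x0 ∨ G.Adj x0 w) ∧ ¬ (w = x1 ∨ G.Adj x1 w) ∧
        ¬ (w = x3 ∨ G.Adj x3 w)) ∧
      (∃ w, (w = x3 ∨ G.Adj x3 w) ∧ ¬ (w = x0 ∨ G.Adj x0 w) ∧ ¬ (w = x1 ∨ G.Adj x1 w) ∧
        ¬ (w = x2 ∨ G.Adj x2 w)) := by
    have hc0 : ∀ x : Fin 13, c4 x = 0 → x = 0 ∨ x = 1 ∨ x = 2 ∨ x = 10 := by decide
    have hc1 : ∀ x : Fin 13, c4 x = 1 → x = 3 ∨ x = 11 ∨ x = 12 := by decide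
    have hc2 : ∀ x : Fin 13, c4 x = 2 → x = 4 ∨ x = 5 ∨ x = 6 := by decide
    have hc3 : ∀ x : Fin 13, c4 x = 3 → x = 7 ∨ x = 8 ∨ x = 9 := by decide
    intro x0 x1 x2 x3 h0 h1 h2 h3
    rcases hc0 x0 h0 with rfl | rfl | rfl | rfl <;> rcases hc1 x1 h1 with rfl | rfl | rfl <;>
      rcases hc2 x2 h2 with rfl | rfl | rfl <;> rcases hc3 x3 h3 with rfl | rfl | rfl <;> decide
  obtain ⟨k0, k1, k2, k3⟩ := key (x 0) (x 1) (x 2) (x 3) (hx 0) (hx 1) (hx 2) (hx 3)
  rintro v ⟨i, rfl⟩
  have conv : ∀ (i : Fin 4) (w : Fin 13), (w = x i ∨ G.Adj (x i) w) →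
      (∀ j, j ≠ i → ¬ (w = x j ∨ G.Adj (x j) w)) → (privateNbhd G (x i) (Set.range x)).Nonempty := by
    intro i w h1 h2
    refine ⟨w, h1, ?_⟩
    simp only [Set.mem_iUnion, not_exists]
    rintro u ⟨⟨j, rfl⟩, hj⟩ h3
    have hji : j ≠ i := by
      rintro rfl
      exact hj rfl
    exact h2 j hji h3
  fin_cases i
  · obtain ⟨w, h1, h2, h3, h4⟩ := k0
    refine conv 0 w h1 ?_
    intro j hj
    fin_cases j
    · exact absurd rfl hj
    · exact h2
    · exact h3
    · exact h4
  · obtain ⟨w, h1, h2, h3, h4⟩ := k1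
    refine conv 1 w h1 ?_
    intro j hj
    fin_cases j
    · exact h2
    · exact absurd rfl hj
    · exact h3
    · exact h4
  · obtain ⟨w, h1, h2, h3, h4⟩ := k2
    refine conv 2 w h1 ?_
    intro j hj
    fin_cases j
    · exact h2
    · exact h3
    · exact absurd rfl hj
    · exact h4
  · obtain ⟨w, h1, h2, h3, h4⟩ := k3
    refine conv 3 w h1 ?_
    intro j hj
    fin_cases j
    · exact h2
    · exact h3
    · exact h4
    · exact absurd rfl hj

/-- Three vertices of different colours form a committee; the private neighbourhood of the first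
must not be empty. -/
lemma three {c : Fin 13 → Fin 3} (hc : IsIRCColouring G c) (a b d : Fin 13) (h1 : c a ≠ c b)
    (h2 : c a ≠ c d) (h3 : c b ≠ c d)
    (hdom : ∀ w, (w = a ∨ G.Adj a w) → (w = b ∨ G.Adj b w) ∨ (w = d ∨ G.Adj d w)) : False := by
  obtain ⟨x, hx⟩ : ∃ x : Fin 3 → Fin 13, ∀ i, c (x i) = i ∧ (x i = a ∨ x i = b ∨ x i = d) := by
    have h4 : ∀ i : Fin 3, ∃ y, c y = i ∧ (y = a ∨ y = b ∨ y = d) := by
      intro i
      have h5 : ∀ p q r : Fin 3, p ≠ q → p ≠ r → q ≠ r → ∀ i : Fin 3, i = p ∨ i = q ∨ i = r := by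
        decide
      rcases h5 _ _ _ h1 h2 h3 i with h | h | h
      · exact ⟨a, h.symm, Or.inl rfl⟩
      · exact ⟨b, h.symm, Or.inr (Or.inl rfl)⟩
      · exact ⟨d, h.symm, Or.inr (Or.inr rfl)⟩
    choose x hx using h4
    exact ⟨x, hx⟩
  have hirr := hc.irredundant x (fun i => (hx i).1)
  have ha : x (c a) = a := by
    rcases (hx (c a)).2 with h | h | h
    · exact h
    · exfalso; apply h1; rw [← h]; exact (hx (c a)).1.symm
    · exfalso; apply h2; rw [← h]; exact (hx (c a)).1.symm
  have hb : x (c b) = b := by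
    rcases (hx (c b)).2 with h | h | h
    · exfalso; apply h1; rw [← h]; exact (hx (c b)).1
    · exact h
    · exfalso; apply h3; rw [← h]; exact (hx (c b)).1.symm
  have hd : x (c d) = d := by
    rcases (hx (c d)).2 with h | h | h
    · exfalso; apply h2; rw [← h]; exact (hx (c d)).1
    · exfalso; apply h3; rw [← h]; exact (hx (c d)).1
    · exact h
  obtain ⟨w, hw1, hw2⟩ := hirr a ⟨c a, ha⟩
  apply hw2
  simp only [Set.mem_iUnion]
  rcases hdom w hw1 with h | h
  · refine ⟨b, ⟨⟨c b, hb⟩, ?_⟩, h⟩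
    rintro h6
    apply h1
    rw [Set.mem_singleton_iff] at h6
    rw [h6]
  · refine ⟨d, ⟨⟨c d, hd⟩, ?_⟩, h⟩
    rintro h6
    apply h2
    rw [Set.mem_singleton_iff] at h6
    rw [h6]

lemma no3 (c : Fin 13 → Fin 3) : ¬ IsIRCColouring G c := by
  intro hc
  have hp := hc.proper
  -- the two neighbours of the vertex of degree two have the same colour
  have e1 : c 11 = c 12 := by
    by_contra hne
    exact three hc 10 11 12 (hp _ _ (by decide)) (hp _ _ (by decide)) hne (by decide)
  have e : ∀ p : Fin 13, G.Adj 11 p → G.Adj 12 p → c p = c 10 := by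
    intro p h1 h2
    by_contra hne
    refine three hc 10 11 p (hp _ _ (by decide)) (Ne.symm hne) (hp _ _ h1) ?_
    intro w hw
    have h3 : ∀ w : Fin 13, (w = 10 ∨ G.Adj 10 w) → (w = 11 ∨ G.Adj 11 w) ∨ w = 12 := by decide
    rcases h3 w hw with h | h
    · exact Or.inl h
    · right; right; rw [h]; exact h2.symm
  have p0 := e 0 (by decide) (by decide)
  have p1 := e 1 (by decide) (by decide)
  have q1 := hp 0 5 (by decide)
  have q2 := hp 0 9 (by decide)
  have q3 := hp 1 3 (by decide)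
  have q4 := hp 3 5 (by decide)
  have q5 := hp 3 9 (by decide)
  have q6 := hp 5 9 (by decide)
  rw [p0] at q1 q2
  rw [p1] at q3
  have fin3 : ∀ x y z t : Fin 3,
      ¬ (x ≠ z ∧ x ≠ t ∧ x ≠ y ∧ y ≠ z ∧ y ≠ t ∧ z ≠ t) := by decide
  exact fin3 _ _ _ _ ⟨q1, q2, q3, q4, q5, q6⟩

/-- **An IRC-colourable graph need not have an IRC-colouring with the chromatic number of
colours.** There is a connected graph with 13 vertices that is IRC-colourable (with four colours)
and has chromatic number three, but every IRC-colouring of it uses more than three colours. -/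
theorem result : ∃ G : SimpleGraph (Fin 13), G.Connected ∧ G.chromaticNumber = 3 ∧
    IRCColourable G ∧
    ∀ (k : ℕ) (c : Fin 13 → Fin k), IsIRCColouring G c → G.chromaticNumber < (k : ℕ∞) := by
  refine ⟨G, connected, chrom, ⟨4, c4, c4_irc⟩, ?_⟩
  intro k c hc
  rw [chrom]
  have hcol : G.Colorable k := ⟨SimpleGraph.Coloring.mk c (fun {u v} h => hc.proper u v h)⟩
  have h1 := hcol.chromaticNumber_le
  rw [chrom] at h1
  have h2 : 3 ≤ k := by exact_mod_cast h1
  rcases Nat.lt_or_ge 3 k with h | h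
  · exact_mod_cast h
  · exfalso
    have h3 : k = 3 := by omega
    subst h3
    exact no3 c hc

end Pool.Agent.Results.MP_c3fc26_co.Counterexample
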